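import Pool.Agent.R591.UL.Fin

/-!
# MP_1c8600_lc under CH

If CH holds, then on every set `E` of cardinality `2^{ℵ₀}` there is one sequence of subsets over
which the Borel classes do not stabilise and, for every `k ≥ 1`, every projective set is of
projective class `k`.
-/

set_option autoImplicit false

namespace Pool.Agent.Results.MP_1c8600_lc.CHCollapse

open Set MeasureTheory
open scoped Ordinal

/-- The Borel classes `C_α` over `A`. -/
inductive ClassC {E : Type} (A : ℕ → Set E) : Ordinal.{0} → Set E → Prop
  | basic (n : ℕ) : ClassC A 0 (A n)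
  | basicCompl (n : ℕ) : ClassC A 0 (A n)ᶜ
  | union (α : Ordinal.{0}) (hα : 0 < α) (ι : Type) (hι : Countable ι) (f : ι → Set E)
      (β : ι → Ordinal.{0}) (hβ : ∀ i, β i < α) (hf : ∀ i, ClassC A (β i) (f i)) :
      ClassC A α (⋃ i, f i)
  | unionCompl (α : Ordinal.{0}) (hα : 0 < α) (ι : Type) (hι : Countable ι) (f : ι → Set E)
      (β : ι → Ordinal.{0}) (hβ : ∀ i, β i < α) (hf : ∀ i, ClassC A (β i) (f i)) :
      ClassC A α (⋃ i, f i)ᶜ

/-- The σ-algebra `B_m` on `E^m` generated by the rectangles `A_{n₁} × ⋯ × A_{n_m}`. -/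
@[reducible] def BB {E : Type} (A : ℕ → Set E) (m : ℕ) : MeasurableSpace (Fin m → E) :=
  MeasurableSpace.generateFrom {R | ∃ n : Fin m → ℕ, R = {x | ∀ i, x i ∈ A (n i)}}

/-- The projection of `W ⊆ E^(m+1)` onto `E^m`, deleting the last coordinate. -/
def prj {E : Type} {m : ℕ} (W : Set (Fin (m + 1) → E)) : Set (Fin m → E) :=
  {x | ∃ y : E, (Fin.snoc (α := fun _ => E) x y : Fin (m + 1) → E) ∈ W}

/-- The classes `Σ^{(m)}_k`, `k ≥ 1` (the value at `k = 0` is irrelevant). -/
def SigP {E : Type} (A : ℕ → Set E) : ℕ → (m : ℕ) → Set (Set (Fin m → E))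
  | 0, _ => ∅
  | 1, m => {X | ∃ W : Set (Fin (m + 1) → E), MeasurableSet[BB A (m + 1)] W ∧ X = prj W}
  | k + 2, m => {X | ∃ W : Set (Fin (m + 1) → E), Wᶜ ∈ SigP A (k + 1) (m + 1) ∧ X = prj W}

/-- A subset of `E` as a subset of `E^1`. -/
def lift {E : Type} (X : Set E) : Set (Fin 1 → E) := {x | x 0 ∈ X}

/-- `X ⊆ E` is of projective class `k`. -/
def OfClass {E : Type} (A : ℕ → Set E) (k : ℕ) (X : Set E) : Prop := lift X ∈ SigP A k 1

/-- `X ⊆ E` is projective: it lies in `Σ^{(1)}_j` or in `Π^{(1)}_j` for some `j ≥ 1`. -/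
def Projective {E : Type} (A : ℕ → Set E) (X : Set E) : Prop :=
  ∃ j, 1 ≤ j ∧ (OfClass A j X ∨ OfClass A j Xᶜ)

theorem result (CH : (Cardinal.continuum : Cardinal.{0}) = Cardinal.aleph 1)
    (E : Type) (hE : Cardinal.mk E = Cardinal.continuum) :
    ∃ A : ℕ → Set E,
      (∀ α < ω₁, ∃ X : Set E, MeasurableSet[MeasurableSpace.generateFrom (Set.range A)] X ∧
        ¬ ClassC A α X) ∧
      (∀ k, 1 ≤ k → ∀ X, Projective A X → OfClass A k X) := by
  classical
  obtain ⟨I, _, ⟨S⟩⟩ := R591.UL.exists_sys CH E hE
  refine ⟨S.AA, ?_, ?_⟩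
  · -- unbounded classes
    have hbound : ∀ α : Ordinal.{0}, α < ω₁ →
        ∃ γ < ω₁, ∀ X, ClassC S.AA α X → S.Coded γ X := by
      intro α
      induction α using WellFoundedLT.induction with
      | ind α ih =>
        intro hα
        have ih' : ∀ β : Set.Iio α, ∃ γ < ω₁, ∀ X, ClassC S.AA β X → S.Coded γ X :=
          fun β => ih β β.2 (lt_trans β.2 hα)
        choose G hG1 hG2 using ih'
        have hc : Countable (Set.Iio α) := (R591.UL.countable_Iio' hα).to_subtype
        obtain ⟨δ, hδ1, hδ2⟩ := R591.UL.bound_countable (Set.countable_range G) (by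
          rintro _ ⟨β, rfl⟩; exact hG1 β)
        have hω := R591.UL.omega0_lt_omega1
        have hκ1 : (2 + ω + ω + ω : Ordinal.{0}) < ω₁ :=
          R591.UL.add_lt_omega1 (R591.UL.add_lt_omega1 (R591.UL.add_lt_omega1
            R591.UL.two_lt_omega1 hω) hω) hω
        set κ : Ordinal.{0} := max δ (2 + ω + ω + ω) with hκ
        have hκ2 : κ < ω₁ := max_lt hδ1 hκ1
        have key : ∀ (ι : Type) (hι : Countable ι) (f : ι → Set E) (β : ι → Ordinal.{0})
            (hβ : ∀ i, β i < α) (hf : ∀ i, ClassC S.AA (β i) (f i)),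
            S.Coded (κ + ω + ω) (⋃ i, f i) := by
          intro ι hι f β hβ hf
          have h1 : ∀ i, S.Coded κ (f i) := fun i =>
            (hG2 ⟨β i, hβ i⟩ (f i) (hf i)).mono ((hδ2 _ ⟨_, rfl⟩).trans (le_max_left _ _))
          rcases isEmpty_or_nonempty ι with h2 | h2
          · rw [iUnion_of_empty]
            refine S.coded_empty.mono ?_
            rw [add_assoc κ]
            exact (le_max_right _ _).trans le_self_add
          · obtain ⟨e, he⟩ := exists_surjective_nat ι
            have h3 := R591.UL.Sys.Coded.iUnion (S := S) (f := fun n => f (e n))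
              (fun n => h1 (e n))
            rwa [he.iUnion_comp f] at h3
        refine ⟨κ + ω + ω + ω, R591.UL.add_lt_omega1 (R591.UL.add_lt_omega1
          (R591.UL.add_lt_omega1 hκ2 hω) hω) hω, ?_⟩
        have hle : κ + ω ≤ κ + ω + ω + ω := le_self_add.trans le_self_add
        intro X hX
        cases hX with
        | basic n =>
          exact ((S.coded_AA n).mono (le_max_right _ _)).mono (le_self_add.trans hle)
        | basicCompl n =>
          exact (((S.coded_AA n).mono (le_max_right _ _)).compl).mono hle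
        | union _ h0 ι hι f β hβ hf => exact (key ι hι f β hβ hf).mono le_self_add
        | unionCompl _ h0 ι hι f β hβ hf => exact (key ι hι f β hβ hf).compl
    intro α hα
    obtain ⟨γ, hγ, h⟩ := hbound α hα
    obtain ⟨X, hX1, hX2⟩ := S.exists_not_coded γ hγ
    refine ⟨X, ?_, fun h' => hX2 (h X h')⟩
    rw [S.gen_AA]; exact hX1
  · -- projective sets
    let M : MeasurableSpace E := S.mE
    have hA : ∀ n, MeasurableSet (S.AA n) := fun n => by
      have h1 : MeasurableSet[MeasurableSpace.generateFrom (Set.range S.AA)] (S.AA n) :=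
        MeasurableSpace.measurableSet_generateFrom ⟨n, rfl⟩
      rwa [S.gen_AA] at h1
    have hBB : ∀ m, BB S.AA m = MeasurableSpace.pi := by
      intro m
      apply le_antisymm
      · refine MeasurableSpace.generateFrom_le ?_
        rintro _ ⟨n, rfl⟩
        have : {x : Fin m → E | ∀ i, x i ∈ S.AA (n i)} = ⋂ i, {x | x i ∈ S.AA (n i)} := by
          ext x; simp
        rw [this]
        exact MeasurableSet.iInter fun i => (measurable_pi_apply i) (hA (n i))
      · refine iSup_le fun i => ?_
        have hM : M = MeasurableSpace.generateFrom (Set.range S.AA) := S.gen_AA.symm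
        rw [MeasurableSpace.comap_le_iff_le_map, hM]
        refine MeasurableSpace.generateFrom_le ?_
        rintro _ ⟨n, rfl⟩
        refine MeasurableSpace.measurableSet_generateFrom ⟨fun j => if j = i then n else 0, ?_⟩
        ext x
        simp only [mem_preimage, mem_ofPred_eq]
        constructor
        · intro h j
          by_cases hj : j = i
          · subst hj; rw [if_pos rfl]; exact h
          · rw [if_neg hj]; exact mem_univ _
        · intro h
          have := h i
          rwa [if_pos rfl] at this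
    have hprj : ∀ m (W : Set (Fin (m + 1) → E)), MeasurableSet W → MeasurableSet (prj W) :=
      fun m W hW => S.proj m W hW
    have hprj' : ∀ m (X : Set (Fin m → E)), MeasurableSet X →
        ∃ W : Set (Fin (m + 1) → E), MeasurableSet W ∧ X = prj W := by
      intro m X hX
      have h1 : Measurable (fun w : Fin (m + 1) → E => fun j : Fin m => w j.castSucc) :=
        measurable_pi_iff.2 fun j => measurable_pi_apply _
      refine ⟨_, h1 hX, ?_⟩
      have hne : Nonempty E := by
        rw [← Cardinal.mk_ne_zero_iff, hE]; exact Cardinal.continuum_ne_zero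
      ext x
      simp only [prj, mem_preimage, mem_ofPred_eq, Fin.snoc_castSucc]
      exact ⟨fun h => ⟨hne.some, h⟩, fun ⟨_, h⟩ => h⟩
    have hiff : ∀ k m (X : Set (Fin m → E)), X ∈ SigP S.AA (k + 1) m ↔ MeasurableSet X := by
      intro k
      induction k with
      | zero =>
        intro m X
        constructor
        · rintro ⟨W, hW, rfl⟩
          rw [hBB] at hW
          exact hprj m W hW
        · intro hX
          obtain ⟨W, hW, h⟩ := hprj' m X hX
          exact ⟨W, by rw [hBB]; exact hW, h⟩
      | succ k ih =>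
        intro m X
        constructor
        · rintro ⟨W, hW, rfl⟩
          exact hprj m W ((ih _ _).1 hW).of_compl
        · intro hX
          obtain ⟨W, hW, h⟩ := hprj' m X hX
          exact ⟨W, (ih _ _).2 hW.compl, h⟩
    intro k hk X hX
    obtain ⟨j, hj, hX⟩ := hX
    obtain ⟨k, rfl⟩ := Nat.exists_eq_add_of_le' hk
    obtain ⟨j, rfl⟩ := Nat.exists_eq_add_of_le' hj
    refine (hiff _ _ _).2 ?_
    rcases hX with hX | hX
    · exact (hiff _ _ _).1 hX
    · have h1 := (hiff _ _ _).1 hX
      have h2 : lift Xᶜ = (lift X)ᶜ := rfl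
      rw [h2] at h1
      exact h1.of_compl

end Pool.Agent.Results.MP_1c8600_lc.CHCollapse
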